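import Pool.Agent.H85.KS2.Targets

/-!
# The counts of iterated differences of a polynomial
-/

set_option autoImplicit false
open Pool.Agent.H98.KS Pool.Agent.H85.KS2

namespace Pool.Agent.H55.KS2

open Polynomial in
theorem dif_poly (P : Polynomial ℤ) (l : ℤ) (hl : l ≠ 0) (hP : 1 ≤ P.natDegree) :
    ∃ Q : Polynomial ℤ, Q.natDegree + 1 = P.natDegree ∧
      ∀ u : ℤ, P.eval (u + l) - P.eval u = l * Q.eval u := by
  have h1 : (X + C l) - X ∣ (P.map C).eval (X + C l) - (P.map C).eval (X : ℤ[X]) :=
    sub_dvd_eval_sub _ _ _
  rw [add_sub_cancel_left] at h1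
  obtain ⟨Q, hQ⟩ := h1
  have e1 : (P.map C).eval (X + C l) = taylor l P := by
    rw [taylor_apply, comp, eval_map]
  have e2 : (P.map C).eval (X : ℤ[X]) = P := by
    rw [eval_map]
    exact comp_X
  rw [e1, e2] at hQ
  refine ⟨Q, ?_, ?_⟩
  · set m := P.natDegree with hm
    have c1 : ∀ i, m ≤ i → (taylor l P - P).coeff i = 0 := by
      intro i hi
      rcases hi.eq_or_lt with h | h
      · rw [coeff_sub, ← h, hm, coeff_taylor_natDegree, coeff_natDegree, sub_self]
      · rw [coeff_sub, coeff_eq_zero_of_natDegree_lt (by rw [natDegree_taylor]; exact h),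
          coeff_eq_zero_of_natDegree_lt h, sub_self]
    have c2 : (taylor l P - P).coeff (m - 1) = m * P.leadingCoeff * l := by
      have h2 : hasseDeriv (m - 1) P = C (P.coeff (m - 1)) + C (m * P.leadingCoeff) * X := by
        ext n
        rw [hasseDeriv_coeff, coeff_add, coeff_C, coeff_C_mul, coeff_X]
        rcases n with _ | _ | n
        · simp
        · have e3 : 0 + 1 + (m - 1) = m := by omega
          rw [e3, if_neg (by norm_num), if_pos (by norm_num)]
          have e4 : m.choose (0 + 1) = m := by rw [zero_add, Nat.choose_one_right]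
          have e5 : m.choose (m - 1) = m := by
            rw [← Nat.choose_symm (by omega : m - 1 ≤ m)]
            have : m - (m - 1) = 1 := by omega
            rw [this, Nat.choose_one_right]
          rw [e5, mul_one, zero_add]
          rfl
        · rw [if_neg (by omega), if_neg (by omega), coeff_eq_zero_of_natDegree_lt (by omega)]
          simp
      rw [coeff_sub, taylor_coeff, h2]
      simp
    have hlc : (m : ℤ) * P.leadingCoeff * l ≠ 0 := by
      apply mul_ne_zero (mul_ne_zero _ _) hl
      · exact_mod_cast (by omega : m ≠ 0)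
      · intro h
        rw [leadingCoeff_eq_zero] at h
        rw [h, natDegree_zero] at hm
        omega
    have c3 : (taylor l P - P).natDegree = m - 1 := by
      apply le_antisymm
      · rw [natDegree_le_iff_coeff_eq_zero]
        intro i hi
        exact c1 i (by omega)
      · apply le_natDegree_of_ne_zero
        rw [c2]
        exact hlc
    rw [hQ, natDegree_C_mul hl] at c3
    omega
  · intro u
    have h3 := congrArg (eval u) hQ
    rw [eval_sub, taylor_eval, eval_mul, eval_C] at h3
    exact h3

theorem CN_le (N : ℕ) (j : ℕ) : ∀ (S : Finset ℤ) (f : ℤ → ℤ) (n : ℤ),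
    CN N j S f n ≤ (2 * N) ^ j * S.card := by
  induction j with
  | zero =>
    intro S f n
    rw [pow_zero, one_mul]
    exact Finset.card_filter_le _ _
  | succ j ih =>
    intro S f n
    rw [CN]
    calc _ ≤ ∑ l ∈ Finset.Ioo (-(N : ℤ)) N, (2 * N) ^ j * S.card := by
          apply Finset.sum_le_sum
          intro l _
          exact (ih _ _ _).trans (Nat.mul_le_mul_left _ (Finset.card_filter_le _ _))
      _ ≤ (2 * N) * ((2 * N) ^ j * S.card) := by
          rw [Finset.sum_const, smul_eq_mul]
          apply Nat.mul_le_mul_right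
          rw [Int.card_Ioo]
          omega
      _ = _ := by ring

theorem CN_zero_fun (N : ℕ) (j : ℕ) : ∀ (S : Finset ℤ) (n : ℤ), n ≠ 0 →
    CN N j S (fun _ => 0) n = 0 := by
  induction j with
  | zero =>
    intro S n hn
    rw [CN, Finset.card_eq_zero, Finset.filter_eq_empty_iff]
    intro u _ h
    exact hn h.symm
  | succ j ih =>
    intro S n hn
    rw [CN]
    apply Finset.sum_eq_zero
    intro l _
    simp only [sub_self]
    exact ih _ n hn

theorem CN_mul (N : ℕ) (c : ℤ) (hc : c ≠ 0) (j : ℕ) : ∀ (S : Finset ℤ) (f : ℤ → ℤ) (n : ℤ),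
    CN N j S (fun u => c * f u) (c * n) = CN N j S f n := by
  induction j with
  | zero =>
    intro S f n
    rw [CN, CN]
    congr 1
    apply Finset.filter_congr
    intro u _
    exact mul_right_inj' hc
  | succ j ih =>
    intro S f n
    rw [CN, CN]
    apply Finset.sum_congr rfl
    intro l _
    have h := ih (S.filter fun u => u + l ∈ S) (fun u => f (u + l) - f u) n
    simp only [mul_sub] at h
    exact h

theorem CN_mul_zero (N : ℕ) (c : ℤ) (j : ℕ) : ∀ (S : Finset ℤ) (f : ℤ → ℤ) (n : ℤ),
    ¬ c ∣ n → CN N j S (fun u => c * f u) n = 0 := by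
  induction j with
  | zero =>
    intro S f n hn
    rw [CN, Finset.card_eq_zero, Finset.filter_eq_empty_iff]
    intro u _ h
    exact hn ⟨_, h.symm⟩
  | succ j ih =>
    intro S f n hn
    rw [CN]
    apply Finset.sum_eq_zero
    intro l _
    simp only [← mul_sub]
    exact ih _ _ n hn

theorem card_dvd (N : ℕ) (n : ℤ) (hn : n ≠ 0) :
    ((Finset.Ioo (-(N : ℤ)) N).filter (fun l => l ∣ n)).card ≤ 2 * n.natAbs.divisors.card := by
  have h : (Finset.Ioo (-(N : ℤ)) N).filter (fun l => l ∣ n) ⊆
      n.natAbs.divisors.image (fun d : ℕ => (d : ℤ)) ∪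
        n.natAbs.divisors.image (fun d : ℕ => -(d : ℤ)) := by
    intro l hl
    rw [Finset.mem_filter] at hl
    have h1 : l.natAbs ∈ n.natAbs.divisors := by
      rw [Nat.mem_divisors]
      exact ⟨Int.natAbs_dvd_natAbs.2 hl.2, Int.natAbs_ne_zero.2 hn⟩
    rw [Finset.mem_union, Finset.mem_image, Finset.mem_image]
    rcases Int.natAbs_eq l with h2 | h2
    · exact Or.inl ⟨_, h1, h2.symm⟩
    · exact Or.inr ⟨_, h1, h2.symm⟩
  calc _ ≤ _ := Finset.card_le_card h
    _ ≤ _ := Finset.card_union_le _ _
    _ ≤ n.natAbs.divisors.card + n.natAbs.divisors.card :=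
        Nat.add_le_add Finset.card_image_le Finset.card_image_le
    _ = _ := by ring

theorem base_count (S : Finset ℤ) (P : Polynomial ℤ) (hP : 1 ≤ P.natDegree) (n : ℤ) :
    (S.filter fun u => P.eval u = n).card ≤ P.natDegree := by
  have h0 : P - Polynomial.C n ≠ 0 := by
    intro h
    rw [sub_eq_zero] at h
    rw [h, Polynomial.natDegree_C] at hP
    omega
  have h1 : S.filter (fun u => P.eval u = n) ⊆ (P - Polynomial.C n).roots.toFinset := by
    intro u hu
    rw [Finset.mem_filter] at hu
    rw [Multiset.mem_toFinset, Polynomial.mem_roots h0, Polynomial.IsRoot, Polynomial.eval_sub,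
      Polynomial.eval_C, hu.2, sub_self]
  calc _ ≤ _ := Finset.card_le_card h1
    _ ≤ _ := Multiset.toFinset_card_le _
    _ ≤ (P - Polynomial.C n).natDegree := Polynomial.card_roots' _
    _ = _ := Polynomial.natDegree_sub_C

theorem ks2_HC : T_HC := by
  intro N j
  induction j with
  | zero =>
    intro S P hP hS
    rw [pow_zero, mul_one, add_zero]
    refine ⟨base_count S P (by omega) 0, fun n _ => ?_⟩
    rw [pow_zero, mul_one]
    exact base_count S P (by omega) n
  | succ j ih =>
    intro S P hP hS
    have hcard : (Finset.Ioo (-(N : ℤ)) N).card ≤ 2 * N := by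
      rw [Int.card_Ioo]
      omega
    have key : ∀ l : ℤ, l ≠ 0 → ∃ Q : Polynomial ℤ, Q.natDegree + 1 = P.natDegree ∧
        (fun u => P.eval (u + l) - P.eval u) = fun u => l * Q.eval u := by
      intro l hl
      obtain ⟨Q, hQ1, hQ2⟩ := dif_poly P l hl (by omega)
      exact ⟨Q, hQ1, funext hQ2⟩
    constructor
    · have hterm : ∀ l ∈ Finset.Ioo (-(N : ℤ)) N,
          CN N j (S.filter fun u => u + l ∈ S) (fun u => P.eval (u + l) - P.eval u) 0 ≤
            (if l = 0 then (2 * N) ^ j * N else 0) + (P.natDegree - 1 + j) * (2 * N) ^ j := by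
        intro l _
        by_cases hl : l = 0
        · rw [if_pos hl]
          have h1 := CN_le N j (S.filter fun u => u + l ∈ S)
            (fun u => P.eval (u + l) - P.eval u) 0
          have h2 : (S.filter fun u => u + l ∈ S).card ≤ N := (Finset.card_filter_le _ _).trans hS
          have h3 : (2 * N) ^ j * (S.filter fun u => u + l ∈ S).card ≤ (2 * N) ^ j * N :=
            Nat.mul_le_mul_left _ h2
          omega
        · rw [if_neg hl, zero_add]
          obtain ⟨Q, hQ1, hQ2⟩ := key l hl
          have h1 := (ih (S.filter fun u => u + l ∈ S) Q (by omega)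
            ((Finset.card_filter_le _ _).trans hS)).1
          have h2 := CN_mul N l hl j (S.filter fun u => u + l ∈ S) (fun u => Q.eval u) 0
          rw [mul_zero] at h2
          rw [hQ2, h2]
          have h3 : Q.natDegree = P.natDegree - 1 := by omega
          rw [← h3]
          exact h1
      rw [CN]
      calc _ ≤ ∑ l ∈ Finset.Ioo (-(N : ℤ)) N, ((if l = 0 then (2 * N) ^ j * N else 0) +
              (P.natDegree - 1 + j) * (2 * N) ^ j) := Finset.sum_le_sum hterm
        _ ≤ (2 * N) ^ j * N + (2 * N) * ((P.natDegree - 1 + j) * (2 * N) ^ j) := by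
            rw [Finset.sum_add_distrib, Finset.sum_const, smul_eq_mul]
            apply Nat.add_le_add
            · rw [Finset.sum_ite_eq']
              split_ifs
              · exact le_rfl
              · exact Nat.zero_le _
            · exact Nat.mul_le_mul_right _ hcard
        _ ≤ _ := by
            obtain ⟨m, hm⟩ : ∃ m, P.natDegree = m + 1 := ⟨P.natDegree - 1, by omega⟩
            rw [hm, Nat.add_sub_cancel, pow_succ]
            have : (2 * N) ^ j * N + 2 * N * ((m + j) * (2 * N) ^ j) +
                (3 * N) * (2 * N) ^ j = (m + 1 + (j + 1)) * ((2 * N) ^ j * (2 * N)) := by ring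
            omega
    · intro n hn
      have hterm : ∀ l ∈ Finset.Ioo (-(N : ℤ)) N,
          CN N j (S.filter fun u => u + l ∈ S) (fun u => P.eval (u + l) - P.eval u) n ≤
            if l ∣ n then P.natDegree * (2 * n.natAbs.divisors.card) ^ j else 0 := by
        intro l _
        by_cases hl : l = 0
        · have h1 : (fun u => P.eval (u + l) - P.eval u) = fun _ => (0 : ℤ) := by
            funext u
            rw [hl, add_zero, sub_self]
          rw [h1, CN_zero_fun N j _ n hn]
          exact Nat.zero_le _
        · obtain ⟨Q, hQ1, hQ2⟩ := key l hl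
          rw [hQ2]
          by_cases hd : l ∣ n
          · rw [if_pos hd]
            obtain ⟨n', rfl⟩ := hd
            have hn' : n' ≠ 0 := fun h => hn (by rw [h, mul_zero])
            rw [CN_mul N l hl j (S.filter fun u => u + l ∈ S) (fun u => Q.eval u) n']
            have h1 := (ih (S.filter fun u => u + l ∈ S) Q (by omega)
              ((Finset.card_filter_le _ _).trans hS)).2 n' hn'
            refine h1.trans (Nat.mul_le_mul (by omega) (Nat.pow_le_pow_left ?_ j))
            apply Nat.mul_le_mul_left
            apply Finset.card_le_card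
            apply Nat.divisors_subset_of_dvd (Int.natAbs_ne_zero.2 hn)
            rw [Int.natAbs_mul]
            exact Dvd.intro_left _ rfl
          · rw [if_neg hd, CN_mul_zero N l j _ _ n hd]
      rw [CN]
      calc _ ≤ ∑ l ∈ Finset.Ioo (-(N : ℤ)) N,
              (if l ∣ n then P.natDegree * (2 * n.natAbs.divisors.card) ^ j else 0) :=
            Finset.sum_le_sum hterm
        _ = ((Finset.Ioo (-(N : ℤ)) N).filter (fun l => l ∣ n)).card *
              (P.natDegree * (2 * n.natAbs.divisors.card) ^ j) := by
            rw [← Finset.sum_filter, Finset.sum_const, smul_eq_mul]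
        _ ≤ (2 * n.natAbs.divisors.card) * (P.natDegree * (2 * n.natAbs.divisors.card) ^ j) :=
            Nat.mul_le_mul_right _ (card_dvd N n hn)
        _ = _ := by ring

end Pool.Agent.H55.KS2
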